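import Pool.Agent.PFE.StmtsE1

/-! # Squad PFE, row KNX (helper86): the kernel of the projection in `N_x` -/

open scoped BigOperators

noncomputable section

namespace Pool.Agent.PFE.H86

open Pool.Agent.PFE

theorem knx (hA : TxaStmt) (hR : TxrStmt) : KnxStmt := by
  intro K A X S J Ω Ω' C _ _ _ _ _ _ _ _ _ _ _ _ y l χ D L F E pr h1 h2 h3 x a ha
  have hl : 1 ≤ l := le_trans one_le_two D.hl
  obtain ⟨Tadd, _, JJ, _, _⟩ := hA K A X y l χ hl D.yl D.χl
  obtain ⟨_, _, _, Ty, _, _, _⟩ := hR K A X y l χ hl D.yl D.χl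
  obtain ⟨q, hq⟩ : ∃ q : A →ₗ[K] A, ∀ b, q b = b - E.j (pr b) :=
    ⟨LinearMap.id - E.j.toLinearMap.comp pr, fun b => rfl⟩
  have qy : ∀ b, q (y * b) = y * q b := by
    intro b
    rw [hq, hq, mul_sub]
    congr 1
    have e := h2 E.Q.y b
    rw [E.jy] at e
    rw [e, map_mul, E.jy]
  have qyr : ∀ b, q (b * y) = q b * y := by
    intro b
    rw [hq, hq, sub_mul]
    congr 1
    have e := h3 b E.Q.y
    rw [E.jy] at e
    rw [e, map_mul, E.jy]
  have qyk : ∀ (k : ℕ) b, q (y ^ k * b) = y ^ k * q b := by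
    intro k
    induction k with
    | zero => intro b; rw [pow_zero, one_mul, one_mul]
    | succ k ih => intro b; rw [pow_succ, mul_assoc, ih, qy, mul_assoc]
  have qykr : ∀ (k : ℕ) b, q (b * y ^ k) = q b * y ^ k := by
    intro k
    induction k with
    | zero => intro b; rw [pow_zero, mul_one, mul_one]
    | succ k ih => intro b; rw [pow_succ, ← mul_assoc, qyr, ih, mul_assoc]
  have qT : ∀ b, q (Tx y l (χ x) b) = Tx y l (χ x) (q b) := by
    intro b
    show q (∑ j ∈ Finset.range l, χ x ^ (l - 1 - j) • (y ^ j * b * y ^ (l - 1 - j))) =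
      ∑ j ∈ Finset.range l, χ x ^ (l - 1 - j) • (y ^ j * q b * y ^ (l - 1 - j))
    rw [map_sum]
    refine Finset.sum_congr rfl fun j _ => ?_
    rw [map_smul, qykr, qyk]
  have qj : ∀ c, q (E.j c) = 0 := by
    intro c
    rw [hq, h1, sub_self]
  -- the claim
  have main : ∀ (n : ℕ) (b : A), b ∈ Nx y χ x → ∃ n' ∈ Nx y χ x, ∃ d,
      q b = Tx y l (χ x) d + y ^ n * q n' := by
    intro n
    induction n with
    | zero =>
      intro b hb
      refine ⟨b, hb, 0, ?_⟩
      have e : Tx y l (χ x) (0 : A) = 0 := by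
        show ∑ j ∈ Finset.range l, χ x ^ (l - 1 - j) • (y ^ j * 0 * y ^ (l - 1 - j)) = 0
        refine Finset.sum_eq_zero fun j _ => ?_
        rw [mul_zero, zero_mul, smul_zero]
      rw [e, zero_add, pow_zero, one_mul]
    | succ n ih =>
      intro b hb
      -- one step
      have hstep : ∃ n' ∈ Nx y χ x, ∃ d, q b = Tx y l (χ x) d + y * q n' := by
        have hr := E.jx x (L.p x ⟨b, hb⟩)
        have hrb : b - E.j (E.Q.i (L.c x (L.p x ⟨b, hb⟩))) ∈ Jx y l χ x := by
          have hk := (L.ker x (⟨b, hb⟩ - ⟨_, hr⟩)).1 (by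
            rw [map_sub, E.jp, L.pc, sub_self])
          exact hk
        obtain ⟨d, n', hn', hd⟩ := (JJ x _).1 hrb
        refine ⟨n', hn', q d, ?_⟩
        have e : q b = q (b - E.j (E.Q.i (L.c x (L.p x ⟨b, hb⟩)))) := by
          rw [map_sub, qj, sub_zero]
        rw [e, hd, map_add, qT, qy]
      obtain ⟨n1, hn1, d1, e1⟩ := hstep
      obtain ⟨n2, hn2, d2, e2⟩ := ih n1 hn1
      refine ⟨n2, hn2, d1 + y * d2, ?_⟩
      rw [e1, e2, Tadd, mul_add, (Ty (χ x) d2).1, pow_succ', mul_assoc, add_assoc]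
  obtain ⟨n', _, d, e⟩ := main l a ha
  refine ⟨d, ?_⟩
  rw [← hq, e, D.yl, zero_mul, add_zero]

end Pool.Agent.PFE.H86
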